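import Pool.Agent.H41.Dpp4

open MeasureTheory Filter Pool.Agent.H41.Dpp

theorem Pool.Agent.Results.MP_4a7829_pr.Exists.result :
    ∃ Q : Measure Ω, IsDPP Q ∧
      ∀ᵐ p ∂(palm Q).prod dirLaw, ∀ᶠ n in atTop, X p.1 p.2 n ≠ 0 :=
  transient
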